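import Pool.Agent.Helper60.RT.Defs2

/-!
# Project RT, block C3: the model moment
-/

open MeasureTheory Real Set Filter Topology

set_option autoImplicit false

namespace Pool.Agent.Helper60.RT

open Pool.Agent.Helper22.AE
open Pool.Agent.Helper22.AC (IsWt)
open Pool.Agent.Helper92.GC (dt tp Tq uu tt arc dd sqa m6)
open Pool.Agent.Helper92.DT (m12 IsMul12)
open Pool.Agent.Helper60.LT (Fr Tf xf yf df vf fr ac co Cut BB PP Cv Hom sl EE k₀ fr_coord fr_meas PP_meas EE_meas int_fr mom BB_scale BB_pos)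
open Pool.Agent.Helper60.QL (R3 nm pA xA sA TA Cone)

/-! ## the euclidean norm -/

theorem sl_nm_h3 (θ : ℝ) : sl nm θ = fun τ => √(1 + τ ^ 2) := by
  funext τ
  unfold sl nm
  congr 1
  have := cos_sq_add_sin_sq θ
  simp only
  linear_combination (1 + τ ^ 2) * this

private theorem w_h3 (τ : ℝ) : 0 < √(1 + τ ^ 2) ∧ √(1 + τ ^ 2) ^ 2 = 1 + τ ^ 2 :=
  ⟨Real.sqrt_pos.2 (by positivity), Real.sq_sqrt (by positivity)⟩

private theorem hd0_h3 (τ : ℝ) : HasDerivAt (fun τ : ℝ => √(1 + τ ^ 2)) (τ / √(1 + τ ^ 2)) τ := by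
  have h1 : HasDerivAt (fun τ : ℝ => 1 + τ ^ 2) (2 * τ) τ := by
    have := (hasDerivAt_pow 2 τ).const_add 1
    simpa using this
  refine (h1.sqrt (by positivity)).congr_deriv ?_
  obtain ⟨h3, -⟩ := w_h3 τ
  field_simp

private theorem hdp_h3 (n : ℕ) (τ : ℝ) : HasDerivAt (fun τ : ℝ => √(1 + τ ^ 2) ^ n) (n * √(1 + τ ^ 2) ^ (n - 1) * (τ / √(1 + τ ^ 2))) τ :=
  (hd0_h3 τ).fun_pow n

private theorem hd1_h3 (τ : ℝ) : HasDerivAt (fun τ : ℝ => τ / √(1 + τ ^ 2)) (1 / √(1 + τ ^ 2) ^ 3) τ := by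
  obtain ⟨h3, h4⟩ := w_h3 τ
  refine ((hasDerivAt_id' τ).fun_div (hd0_h3 τ) h3.ne').congr_deriv ?_
  field_simp
  linear_combination h4

private theorem hd2_h3 (τ : ℝ) : HasDerivAt (fun τ : ℝ => 1 / √(1 + τ ^ 2) ^ 3) (-3 * τ / √(1 + τ ^ 2) ^ 5) τ := by
  obtain ⟨h3, h4⟩ := w_h3 τ
  refine ((hasDerivAt_const τ (1 : ℝ)).fun_div (hdp_h3 3 τ) (pow_ne_zero 3 h3.ne')).congr_deriv ?_
  push_cast
  field_simp
  ring

private theorem hd3_h3 (τ : ℝ) : HasDerivAt (fun τ : ℝ => -3 * τ / √(1 + τ ^ 2) ^ 5) (-3 * (1 - 4 * τ ^ 2) / √(1 + τ ^ 2) ^ 7) τ := by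
  obtain ⟨h3, h4⟩ := w_h3 τ
  refine (((hasDerivAt_id' τ).const_mul (-3)).fun_div (hdp_h3 5 τ) (pow_ne_zero 5 h3.ne')).congr_deriv ?_
  push_cast
  field_simp
  norm_num
  linear_combination -h4

private theorem cv_h3 : Cv (1 / 8) 9 (fun τ : ℝ => √(1 + τ ^ 2)) := by
  have e1 : deriv (fun τ : ℝ => √(1 + τ ^ 2)) = fun τ => τ / √(1 + τ ^ 2) := funext fun τ => (hd0_h3 τ).deriv
  have e2 : deriv (deriv (fun τ : ℝ => √(1 + τ ^ 2))) = fun τ => 1 / √(1 + τ ^ 2) ^ 3 := by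
    rw [e1]
    exact funext fun τ => (hd1_h3 τ).deriv
  have e3 : deriv (deriv (deriv (fun τ : ℝ => √(1 + τ ^ 2)))) = fun τ => -3 * τ / √(1 + τ ^ 2) ^ 5 := by
    rw [e2]
    exact funext fun τ => (hd2_h3 τ).deriv
  have e4 : deriv (deriv (deriv (deriv (fun τ : ℝ => √(1 + τ ^ 2))))) = fun τ => -3 * (1 - 4 * τ ^ 2) / √(1 + τ ^ 2) ^ 7 := by
    rw [e3]
    exact funext fun τ => (hd3_h3 τ).deriv
  have hw : ∀ τ : ℝ, 1 ≤ √(1 + τ ^ 2) := fun τ => by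
    rw [Real.one_le_sqrt]
    nlinarith [sq_nonneg τ]
  have hw2 : ∀ τ : ℝ, |τ| ≤ 1 → √(1 + τ ^ 2) ≤ 2 := fun τ hτ => by
    rw [Real.sqrt_le_left (by norm_num)]
    have := sq_le_one_iff_abs_le_one τ |>.2 hτ
    linarith
  refine ⟨?_, ?_, ?_, ?_, ?_⟩
  · exact ContDiff.sqrt (by fun_prop) fun τ => by positivity
  · intro τ hτ
    rw [e2]
    simp only
    have h1 := hw τ
    have h2 : √(1 + τ ^ 2) ^ 3 ≤ 2 ^ 3 := pow_le_pow_left₀ (by positivity) (hw2 τ hτ) 3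
    rw [div_le_div_iff₀ (by norm_num) (by positivity)]
    linarith
  · intro τ hτ
    rw [e2]
    simp only
    have h1 := hw τ
    have h2 : 1 ≤ √(1 + τ ^ 2) ^ 3 := one_le_pow₀ h1
    rw [abs_of_nonneg (by positivity), div_le_iff₀ (by positivity)]
    linarith
  · intro τ hτ
    rw [e3]
    simp only
    have h1 := hw τ
    have h2 : 1 ≤ √(1 + τ ^ 2) ^ 5 := one_le_pow₀ h1
    rw [abs_div, abs_of_nonneg (by positivity : 0 ≤ √(1 + τ ^ 2) ^ 5), div_le_iff₀ (by positivity), abs_mul]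
    have h3 : |(-3 : ℝ)| = 3 := by norm_num
    rw [h3]
    linarith
  · intro τ hτ
    rw [e4]
    simp only
    have h1 := hw τ
    have h2 : 1 ≤ √(1 + τ ^ 2) ^ 7 := one_le_pow₀ h1
    rw [abs_div, abs_of_nonneg (by positivity : 0 ≤ √(1 + τ ^ 2) ^ 7), div_le_iff₀ (by positivity), abs_mul]
    have h3 : |(-3 : ℝ)| = 3 := by norm_num
    have h4 := sq_le_one_iff_abs_le_one τ |>.2 hτ
    have h5 : |1 - 4 * τ ^ 2| ≤ 3 := abs_le.2 ⟨by linarith, by nlinarith [sq_nonneg τ]⟩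
    rw [h3]
    linarith

/-- the euclidean norm is a phase -/
theorem nm_hom_h3 : Hom (1 / 8) 9 nm where
  cont := by
    unfold nm
    fun_prop
  hom := by
    intro s v hs
    unfold nm
    simp only
    rw [show (s * v.1) ^ 2 + (s * v.2) ^ 2 = s ^ 2 * (v.1 ^ 2 + v.2 ^ 2) by ring, Real.sqrt_mul (by positivity), Real.sqrt_sq hs.le]
  cv := by
    intro θ
    rw [sl_nm_h3]
    exact cv_h3

/-- the state sum does not depend on the direction -/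
theorem PP_rot_h3 {L S K θ y T x : ℝ} (hT : 0 < T) : PP nm L S K (fr θ y T x) = PP nm L S K (fr 0 y T x) := by
  obtain ⟨h1, h2, -, -⟩ := fr_coord (θ := θ) (y := y) (x := x) hT
  obtain ⟨h3, h4, -, -⟩ := fr_coord (θ := 0) (y := y) (x := x) hT
  unfold PP
  rw [h1, h2, h3, h4]
  have e : (fun k : ℤ × ℤ => ee (nm (vf (fr θ y T x) k))) = fun k => ee (nm (vf (fr 0 y T x) k)) := by
    funext k
    congr 1
    unfold nm
    congr 1
    simp only [vf, fr, cos_zero, sin_zero]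
    have := cos_sq_add_sin_sq θ
    linear_combination (T ^ 2 * ((k.1 + k.2 * x) ^ 2 + (k.2 * y) ^ 2)) * this
  rw [e]

/-- scaling of a variable -/
private theorem scl_h3 {G : ℝ → ENNReal} (hG : Measurable G) {a lo hi lo' hi' : ℝ} (ha : 0 < a) (h1 : lo' * a ≤ lo) (h2 : hi ≤ hi' * a) :
    ∫⁻ Y in Icc lo hi, G (Y / a) ≤ ENNReal.ofReal a * ∫⁻ T in Icc lo' hi', G T := by
  have h3 : ∫⁻ Y in Icc lo hi, G (Y / a) ≤ ∫⁻ Y, (Icc lo' hi').indicator G (a⁻¹ * Y) := by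
    rw [← lintegral_indicator measurableSet_Icc]
    refine lintegral_mono fun Y => ?_
    by_cases hY : Y ∈ Icc lo hi
    · have h4 : a⁻¹ * Y ∈ Icc lo' hi' := by
        rw [inv_mul_eq_div]
        exact ⟨by rw [le_div_iff₀ ha]; exact h1.trans hY.1, by rw [div_le_iff₀ ha]; exact hY.2.trans h2⟩
      rw [indicator_of_mem hY, indicator_of_mem h4, inv_mul_eq_div]
    · rw [indicator_of_notMem hY]
      exact bot_le
  refine h3.trans (le_of_eq ?_)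
  rw [← lintegral_indicator measurableSet_Icc]
  have h5 : Measurable ((Icc lo' hi').indicator G) := hG.indicator measurableSet_Icc
  have h6 := Real.map_volume_mul_left (a := a⁻¹) (inv_ne_zero ha.ne')
  rw [← lintegral_map h5 (measurable_const_mul a⁻¹), h6, lintegral_smul_measure, inv_inv, abs_of_pos ha]
  rfl

/-- change of the order of integration -/
private theorem swp_h3 {g : ℝ × ℝ × ℝ → ENNReal} (hg : Measurable g) (I J L : Set ℝ) :
    ∫⁻ x in L, ∫⁻ y in I, ∫⁻ T in J, g (y, T, x) = ∫⁻ y in I, ∫⁻ T in J, ∫⁻ x in L, g (y, T, x) := by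
  have h1 : Measurable (fun q : (ℝ × ℝ) × ℝ => g (q.1.2, q.2, q.1.1)) :=
    hg.comp (by fun_prop)
  have h2 : Measurable (fun q : ℝ × ℝ => ∫⁻ T in J, g (q.2, T, q.1)) := h1.lintegral_prod_right'
  rw [lintegral_lintegral_swap h2.aemeasurable]
  refine lintegral_congr fun y => ?_
  have h3 : Measurable (fun q : ℝ × ℝ => g (y, q.2, q.1)) := hg.comp (by fun_prop)
  exact lintegral_lintegral_swap h3.aemeasurable

/-- the left hand side by the integral over the heights -/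
private theorem lhs_h3 {g : ℝ × ℝ × ℝ → ENNReal} (hg : Measurable g) {β X U : ℝ} (hβ : 1 ≤ β) (hX : 1 ≤ X) (hU : 1 ≤ U) :
    ∫⁻ x in Ico (0 : ℝ) 1, ∫⁻ Y in Icc (X / (β * U ^ 3)) (β * X / U ^ 3), ∫⁻ y in Icc (1 / (β * U ^ 2)) (β / U ^ 2), g (y, Y / y ^ 2, x) ≤
      ENNReal.ofReal (β ^ 2 / U ^ 4) * ∫⁻ y in Icc (1 / (β * U ^ 2)) (β / U ^ 2), ∫⁻ T in Icc (X * U / β ^ 3) (β ^ 3 * (X * U)), ∫⁻ x in Ico (0 : ℝ) 1, g (y, T, x) := by
  have hβ0 : 0 < β := by linarith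
  have hX0 : 0 < X := by linarith
  have hU0 : 0 < U := by linarith
  rw [← swp_h3 hg, ← lintegral_const_mul' _ _ ENNReal.ofReal_ne_top]
  refine lintegral_mono fun x => ?_
  simp only
  have h1 : Measurable (fun q : ℝ × ℝ => g (q.2, q.1 / q.2 ^ 2, x)) := hg.comp (by fun_prop)
  rw [lintegral_lintegral_swap h1.aemeasurable, ← lintegral_const_mul' _ _ ENNReal.ofReal_ne_top]
  refine setLIntegral_mono' measurableSet_Icc fun y hy => ?_
  have hy0 : 0 < y := lt_of_lt_of_le (by positivity) hy.1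
  have h2 : Measurable (fun T : ℝ => g (y, T, x)) := hg.comp (by fun_prop)
  have hy2 : y ^ 2 ≤ β ^ 2 / U ^ 4 := by
    have := pow_le_pow_left₀ hy0.le hy.2 2
    calc y ^ 2 ≤ (β / U ^ 2) ^ 2 := this
      _ = β ^ 2 / U ^ 4 := by ring
  have hy1 : 1 / (β ^ 2 * U ^ 4) ≤ y ^ 2 := by
    have := pow_le_pow_left₀ (by positivity) hy.1 2
    calc 1 / (β ^ 2 * U ^ 4) = (1 / (β * U ^ 2)) ^ 2 := by ring
      _ ≤ y ^ 2 := this
  refine (scl_h3 h2 (by positivity : 0 < y ^ 2) (lo' := X * U / β ^ 3) (hi' := β ^ 3 * (X * U)) ?_ ?_).trans ?_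
  · calc X * U / β ^ 3 * y ^ 2 ≤ X * U / β ^ 3 * (β ^ 2 / U ^ 4) := mul_le_mul_of_nonneg_left hy2 (by positivity)
      _ = X / (β * U ^ 3) := by field_simp
  · calc β * X / U ^ 3 = β ^ 3 * (X * U) * (1 / (β ^ 2 * U ^ 4)) := by field_simp
      _ ≤ β ^ 3 * (X * U) * y ^ 2 := mul_le_mul_of_nonneg_left hy1 (by positivity)
  · exact mul_le_mul' (ENNReal.ofReal_le_ofReal hy2) le_rfl

/-- the integral over the box of frames from below -/
private theorem low_h3 {L S K β X U : ℝ} (hβ : 1 ≤ β) (hX : 1 ≤ X) (hU : 1 ≤ U) :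
    ENNReal.ofReal (X ^ 3 * U ^ 3 / β ^ 9) * ∫⁻ y in Icc (1 / (β * U ^ 2)) (β / U ^ 2), ∫⁻ T in Icc (X * U / β ^ 3) (β ^ 3 * (X * U)), ∫⁻ x in Ico (0 : ℝ) 1, PP nm L S K (fr 0 y T x) ≤
      ∫⁻ f in EE (X ^ 2) (1 / U ^ 2) (β ^ 7), PP nm L S K f := by
  have hβ0 : 0 < β := by linarith
  have hX0 : 0 < X := by linarith
  have hU0 : 0 < U := by linarith
  have hPm : Measurable (PP nm L S K) := PP_meas nm_hom_h3.cont _ _ _
  rw [← lintegral_indicator (EE_meas _ _ _), int_fr (hPm.indicator (EE_meas _ _ _))]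
  have hθ : ∀ θ : ℝ, ENNReal.ofReal (X ^ 3 * U ^ 3 / β ^ 9) * ∫⁻ y in Icc (1 / (β * U ^ 2)) (β / U ^ 2), ∫⁻ T in Icc (X * U / β ^ 3) (β ^ 3 * (X * U)), ∫⁻ x in Ico (0 : ℝ) 1, PP nm L S K (fr 0 y T x) ≤
      ∫⁻ y, ∫⁻ T in Ioi (0 : ℝ), ∫⁻ x, ENNReal.ofReal (T ^ 3) * (EE (X ^ 2) (1 / U ^ 2) (β ^ 7)).indicator (PP nm L S K) (fr θ y T x) := by
    intro θ
    rw [← lintegral_const_mul' _ _ ENNReal.ofReal_ne_top]
    refine le_trans ?_ (setLIntegral_le_lintegral (Icc (1 / (β * U ^ 2)) (β / U ^ 2)) _)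
    refine setLIntegral_mono' measurableSet_Icc fun y hy => ?_
    have hy0 : 0 < y := lt_of_lt_of_le (by positivity) hy.1
    rw [← lintegral_const_mul' _ _ ENNReal.ofReal_ne_top]
    have hsub : Icc (X * U / β ^ 3) (β ^ 3 * (X * U)) ⊆ Ioi (0 : ℝ) := fun T hT => lt_of_lt_of_le (by positivity) hT.1
    refine le_trans ?_ (lintegral_mono_set hsub)
    refine setLIntegral_mono' measurableSet_Icc fun T hT => ?_
    have hT0 : 0 < T := hsub hT
    rw [← lintegral_const_mul' _ _ ENNReal.ofReal_ne_top]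
    refine le_trans ?_ (setLIntegral_le_lintegral (Ico (0 : ℝ) 1) _)
    refine setLIntegral_mono' measurableSet_Ico fun x hx => ?_
    obtain ⟨f1, f2, f3, f4⟩ := fr_coord (θ := θ) (y := y) (x := x) hT0
    have hTl : (X * U / β ^ 3) ^ 2 ≤ T ^ 2 := pow_le_pow_left₀ (by positivity) hT.1 2
    have hTu : T ^ 2 ≤ (β ^ 3 * (X * U)) ^ 2 := pow_le_pow_left₀ hT0.le hT.2 2
    have hmem : fr θ y T x ∈ EE (X ^ 2) (1 / U ^ 2) (β ^ 7) := by
      refine ⟨by rw [f1]; exact hT0, by rw [f2]; exact hx.1, by rw [f2]; exact hx.2, ?_, ?_, ?_, ?_⟩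
      · rw [f4]
        calc X ^ 2 = β ^ 7 * ((X * U / β ^ 3) ^ 2 * (1 / (β * U ^ 2))) := by field_simp
          _ ≤ β ^ 7 * (T ^ 2 * y) := by
            refine mul_le_mul_of_nonneg_left ?_ (by positivity)
            exact mul_le_mul hTl hy.1 (by positivity) (by positivity)
      · rw [f4]
        calc T ^ 2 * y ≤ (β ^ 3 * (X * U)) ^ 2 * (β / U ^ 2) := mul_le_mul hTu hy.2 hy0.le (by positivity)
          _ = β ^ 7 * X ^ 2 := by field_simp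
      · rw [f3]
        calc 1 / U ^ 2 = β * (1 / (β * U ^ 2)) := by field_simp
          _ ≤ β * y := mul_le_mul_of_nonneg_left hy.1 hβ0.le
          _ ≤ β ^ 7 * y := mul_le_mul_of_nonneg_right (le_self_pow₀ hβ (by norm_num)) hy0.le
      · rw [f3]
        calc y ≤ β / U ^ 2 := hy.2
          _ = β * (1 / U ^ 2) := by ring
          _ ≤ β ^ 7 * (1 / U ^ 2) := mul_le_mul_of_nonneg_right (le_self_pow₀ hβ (by norm_num)) (by positivity)
    rw [indicator_of_mem hmem, PP_rot_h3 (θ := θ) hT0]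
    refine mul_le_mul' (ENNReal.ofReal_le_ofReal ?_) le_rfl
    calc X ^ 3 * U ^ 3 / β ^ 9 = (X * U / β ^ 3) ^ 3 := by ring
      _ ≤ T ^ 3 := pow_le_pow_left₀ (by positivity) hT.1 3
  refine le_trans ?_ (lintegral_mono hθ)
  rw [setLIntegral_const, Real.volume_Ioc]
  refine le_mul_of_one_le_right' ?_
  rw [← ENNReal.ofReal_one]
  refine ENNReal.ofReal_le_ofReal ?_
  have := Real.pi_gt_three
  linarith

/-- C3: the model moment from `mom` (LT/G6), `int_fr` (LT/D1) -/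
theorem model {ε β L : ℝ} (hε : 0 < ε) (hβ : 1 ≤ β) (hL : 1 ≤ L) : ∃ s₁ : ℝ, 0 < s₁ ∧ s₁ ≤ 1 ∧ ∀ (s₀ : ℝ), 0 < s₀ → ∃ C : ℝ, 1 ≤ C ∧
    ∀ (X N U S : ℝ), 1 ≤ X → 1 ≤ N → 1 ≤ U → s₀ ≤ S → S ≤ 3 → S ≤ s₁ * U ^ 2 →
      ∫⁻ x in Ico (0 : ℝ) 1, ∫⁻ Y in Icc (X / (β * U ^ 3)) (β * X / U ^ 3), ∫⁻ y in Icc (1 / (β * U ^ 2)) (β / U ^ 2), PP nm L S (X * N) (fr 0 y (Y / y ^ 2) x) ≤
        ENNReal.ofReal (C * (X * N) ^ ε * X * U ^ (-(17 : ℝ)) * BB N (X * N)) := by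
  have hβ0 : 0 < β := by linarith
  have hk : 0 < k₀ (1 / 8) 9 := by
    unfold k₀
    norm_num
  refine ⟨min 1 (k₀ (1 / 8) 9 / (2 * β ^ 7)), lt_min one_pos (by positivity), min_le_left _ _, fun s₀ hs₀ => ?_⟩
  obtain ⟨C, hC, hm⟩ := mom (ε := min ε 1) (c₁ := 1 / 8) (B := 9) (L := L) (β := β ^ 7) (Y := 1) (s₀ := s₀) (lt_min hε one_pos) (min_le_right _ _)
    (by norm_num) (by norm_num) (by norm_num) hL (one_le_pow₀ hβ) one_pos hs₀
  refine ⟨β ^ 11 * C, by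
    have : 1 ≤ β ^ 11 := one_le_pow₀ hβ
    nlinarith, fun X N U S hX hN hU hS0 hS3 hS1 => ?_⟩
  have hX0 : 0 < X := by linarith
  have hN0 : 0 < N := by linarith
  have hU0 : 0 < U := by linarith
  have hK : 1 ≤ X * N := one_le_mul_of_one_le_of_one_le hX hN
  have hsq : √(X ^ 2 / (1 / U ^ 2)) = X * U := by
    rw [show X ^ 2 / (1 / U ^ 2) = (X * U) ^ 2 by field_simp, Real.sqrt_sq (by positivity)]
  have hXU : 1 ≤ X * U := one_le_mul_of_one_le_of_one_le hX hU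
  have h1 := hm nm (X ^ 2) (1 / U ^ 2) (X * N) S nm_hom_h3 (by positivity) (by positivity)
    (by rw [div_le_one (by positivity)]; exact one_le_pow₀ hU) (by rw [hsq]; exact hXU) hS0 hS3 (by
      have h2 : S ≤ k₀ (1 / 8) 9 / (2 * β ^ 7) * U ^ 2 := hS1.trans (mul_le_mul_of_nonneg_right (min_le_right _ _) (by positivity))
      calc 11 / 10 * (β ^ 7 * (1 / U ^ 2) * S) ≤ 11 / 10 * (β ^ 7 * (1 / U ^ 2) * (k₀ (1 / 8) 9 / (2 * β ^ 7) * U ^ 2)) := by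
            refine mul_le_mul_of_nonneg_left ?_ (by norm_num)
            exact mul_le_mul_of_nonneg_left h2 (by positivity)
        _ = 11 / 20 * k₀ (1 / 8) 9 := by
            field_simp
            ring
        _ ≤ k₀ (1 / 8) 9 := by linarith) hK
  have h3 := lhs_h3 (g := fun q => PP nm L S (X * N) (fr 0 q.1 q.2.1 q.2.2)) ((PP_meas nm_hom_h3.cont _ _ _).comp
    (fr_meas.comp (measurable_const.prodMk measurable_id))) hβ hX hU
  have h4 := low_h3 (L := L) (S := S) (K := X * N) hβ hX hU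
  refine h3.trans ?_
  have hc : 0 < X ^ 3 * U ^ 3 / β ^ 9 := by positivity
  have h5 : ∫⁻ y in Icc (1 / (β * U ^ 2)) (β / U ^ 2), ∫⁻ T in Icc (X * U / β ^ 3) (β ^ 3 * (X * U)), ∫⁻ x in Ico (0 : ℝ) 1, PP nm L S (X * N) (fr 0 y T x) ≤
      ENNReal.ofReal (X ^ 3 * U ^ 3 / β ^ 9)⁻¹ * ∫⁻ f in EE (X ^ 2) (1 / U ^ 2) (β ^ 7), PP nm L S (X * N) f := by
    have h6 := mul_le_mul' (le_refl (ENNReal.ofReal (X ^ 3 * U ^ 3 / β ^ 9)⁻¹)) h4
    rw [← mul_assoc, ← ENNReal.ofReal_mul (by positivity), inv_mul_cancel₀ hc.ne', ENNReal.ofReal_one, one_mul] at h6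
    exact h6
  refine (mul_le_mul' le_rfl (h5.trans (mul_le_mul' le_rfl h1))).trans ?_
  rw [← ENNReal.ofReal_mul (by positivity), ← ENNReal.ofReal_mul (by positivity)]
  refine ENNReal.ofReal_le_ofReal ?_
  rw [hsq, show X * N / (X * U) = N / U by field_simp, show X * N * (1 / U ^ 2) ^ 2 = X * N / U ^ 4 by ring, BB_scale hN0 (by positivity) hU0]
  have hBB := (BB_pos hN0 (by positivity : 0 < X * N)).1
  have hKε : (X * N) ^ (min ε 1) ≤ (X * N) ^ ε := rpow_le_rpow_of_exponent_le hK (min_le_left _ _)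
  have hU17 : U ^ (-(17 : ℝ)) = (U ^ 17)⁻¹ := by
    rw [rpow_neg hU0.le]
    congr 1
    exact_mod_cast rpow_natCast U 17
  rw [hU17]
  calc β ^ 2 / U ^ 4 * ((X ^ 3 * U ^ 3 / β ^ 9)⁻¹ * (C * (X * N) ^ (min ε 1) * ((X ^ 2) ^ 2 / (1 / U ^ 2)) * (BB N (X * N) / U ^ 12)))
      = β ^ 11 * C * (X * N) ^ (min ε 1) * X * (U ^ 17)⁻¹ * BB N (X * N) := by
        field_simp
    _ ≤ β ^ 11 * C * (X * N) ^ ε * X * (U ^ 17)⁻¹ * BB N (X * N) := by gcongr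

end Pool.Agent.Helper60.RT
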